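import Mathlib

/-!
# Six two-sided segment mirrors that leave no region of positive area in the dark

Let `w = exp (iπ/3)`. The six mirrors are the segments from `w ^ k` to `4 w ^ (k + 1)`, `k = 0, ..., 5`,
and the light is at the centre `p = 0`. Every point of the plane outside finitely many lines is on a ray
from `p` which is reflected at most once. So the answer to the question is no: there are configurations
of finitely many (bounded) segment mirrors, with the light in general position, for which the set of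
the points that are not illuminated has measure zero.

Proof. Write `z = x + y w` with real `x`, `y`. In the open sector `x, y > 0` there is only the mirror from
`1` to `4 w`, on the line `4 x + y = 4`, and all points in front of it see the light. The rays
reflected by the mirror from `w⁻¹` to `4` seem to come from the point `s`, the mirror image of `0`. The
point `s` lies on the line `4 x + y = 4` (because `w` has order six), so these rays pass by the mirror from
`1` to `4 w` on its two sides without touching it, and they reach all points of the sector behind this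
mirror with `8 y - 7 x + 28 > 0`. The points with `8 y - 7 x + 28 < 0` are reached by the rays reflected
at the mirror from `w⁻²` to `4 w⁻¹`.
-/

set_option autoImplicit false

open MeasureTheory

namespace Pool.Agent.Results.MP_74d6fb_co.SixMirrors

/-- The mirror with the end points `m.1` and `m.2`: a closed segment in the plane `ℂ`. -/
def mirror (m : ℂ × ℂ) : Set ℂ := segment ℝ m.1 m.2

/-- The law of reflection. A ray with direction `v` that meets a mirror of direction `d` continues in
the direction `refl d v`: the component of `v` parallel to `d` is kept, the normal component is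
reversed. -/
noncomputable def refl (d v : ℂ) : ℂ := (2 * inner ℝ d v / inner ℝ d d : ℝ) • d - v

/-- The open segment between `x` and `x + t v` does not meet any mirror. -/
def Clear {n : ℕ} (M : Fin n → ℂ × ℂ) (x v : ℂ) (t : ℝ) : Prop :=
  ∀ s : ℝ, 0 < s → s < t → ∀ i, x + s • v ∉ mirror (M i)

/-- `Leaves M p x v`: some ray from `p` leaves the point `x` in the direction `v`, either at the start, or
after a reflection at `x`, an interior point of a mirror. -/
inductive Leaves {n : ℕ} (M : Fin n → ℂ × ℂ) (p : ℂ) : ℂ → ℂ → Prop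
  | start (v : ℂ) (hv : v ≠ 0) : Leaves M p p v
  | reflect (x v : ℂ) (t : ℝ) (i : Fin n) (h : Leaves M p x v) (ht : 0 < t) (hc : Clear M x v t)
      (hi : x + t • v ∈ openSegment ℝ (M i).1 (M i).2) :
      Leaves M p (x + t • v) (refl ((M i).2 - (M i).1) v)

/-- `q` is illuminated from `p`: it lies on the path of a ray from `p`, after any finite number of
reflections. -/
def Illuminated {n : ℕ} (M : Fin n → ℂ × ℂ) (p q : ℂ) : Prop :=
  ∃ (x v : ℂ) (t : ℝ), Leaves M p x v ∧ 0 ≤ t ∧ Clear M x v t ∧ q = x + t • v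

/-! ### The configuration -/

/-- `exp (iπ/3)` -/
noncomputable def w : ℂ := ⟨1 / 2, √3 / 2⟩

/-- The six mirrors. -/
noncomputable def six : Fin 6 → ℂ × ℂ := fun k => (w ^ (k : ℕ), 4 * w ^ ((k : ℕ) + 1))

lemma s3 : √3 * √3 = 3 := Real.mul_self_sqrt (by norm_num)

lemma s3p : 0 < √3 := Real.sqrt_pos.2 (by norm_num)

/-- the point `x + y w` -/
noncomputable def E (x y : ℝ) : ℂ := ⟨x + y / 2, y * √3 / 2⟩

lemma wsq : w ^ 2 = w - 1 := by
  have h := s3
  apply Complex.ext
  · simp only [w, pow_two, Complex.mul_re, Complex.sub_re, Complex.one_re]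
    nlinarith
  · simp only [w, pow_two, Complex.mul_im, Complex.sub_im, Complex.one_im]
    ring

lemma w_mul (x y : ℝ) : w * E x y = E (-y) (x + y) := by
  have h := s3
  apply Complex.ext
  · simp only [w, E, Complex.mul_re]
    linear_combination (-(y / 4)) * h
  · simp only [w, E, Complex.mul_im]
    ring

lemma E_one : (1 : ℂ) = E 1 0 := by
  apply Complex.ext <;> simp [E]

lemma w3 : w ^ 3 = -1 := by
  rw [pow_succ, wsq, sub_mul, one_mul, ← pow_two, wsq]
  ring

lemma w6 : w ^ 6 = 1 := by
  have : w ^ 6 = (w ^ 3) ^ 2 := by ring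
  rw [this, w3]
  norm_num

lemma w0 : w ≠ 0 := by
  intro h
  have := w6
  rw [h] at this
  norm_num at this

lemma E_add (a b c d : ℝ) : E a b + E c d = E (a + c) (b + d) := by
  apply Complex.ext
  · simp only [E, Complex.add_re]; ring
  · simp only [E, Complex.add_im]; ring

lemma E_sub (a b c d : ℝ) : E a b - E c d = E (a - c) (b - d) := by
  apply Complex.ext
  · simp only [E, Complex.sub_re]; ring
  · simp only [E, Complex.sub_im]; ring

lemma E_smul (s a b : ℝ) : s • E a b = E (s * a) (s * b) := by
  apply Complex.ext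
  · simp only [E, Complex.smul_re, smul_eq_mul]; ring
  · simp only [E, Complex.smul_im, smul_eq_mul]; ring

lemma E_inj {a b c d : ℝ} (h : E a b = E c d) : a = c ∧ b = d := by
  have h1 := congrArg Complex.im h
  have h2 := congrArg Complex.re h
  simp only [E] at h1 h2
  have h3 := s3p
  have h4 : b = d := by
    have : (b - d) * √3 = 0 := by linarith
    rcases mul_eq_zero.1 this with h5 | h5
    · linarith
    · exact absurd h5 h3.ne'
  subst h4
  exact ⟨by linarith, rfl⟩

lemma E_surj (z : ℂ) : z = E (z.re - z.im / √3) (2 * z.im / √3) := by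
  have h3 := s3p
  apply Complex.ext
  · simp only [E]
    field_simp
    ring
  · simp only [E]
    field_simp

/-- the inner product in the coordinates `x`, `y` -/
lemma inner_E (a b c d : ℝ) :
    inner ℝ (E a b) (E c d) = a * c + (a * d + b * c) / 2 + b * d := by
  have h := s3
  rw [Complex.inner]
  simp only [E, Complex.mul_re, Complex.conj_re, Complex.conj_im]
  linear_combination (b * d / 4) * h

lemma m0 : six 0 = (E 1 0, E 0 4) := by
  have h : (4 : ℂ) * w = E 0 4 := by
    apply Complex.ext
    · simp [E, w]; ring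
    · simp [E, w]; ring
  simp [six, h, ← E_one]

/-- rotation of the configuration -/
lemma rot (i : Fin 6) : six (i + 1) = (w * (six i).1, w * (six i).2) := by
  unfold six
  have h := w6
  have h5 : w ^ 6 = 1 ∧ w ^ 7 = w := ⟨h, by rw [pow_succ, h, one_mul]⟩
  fin_cases i
  · exact Prod.ext (by simp) (by simp; ring)
  · exact Prod.ext (by show w ^ 2 = w * w ^ 1; ring) (by show 4 * w ^ 3 = w * (4 * w ^ 2); ring)
  · exact Prod.ext (by show w ^ 3 = w * w ^ 2; ring) (by show 4 * w ^ 4 = w * (4 * w ^ 3); ring)
  · exact Prod.ext (by show w ^ 4 = w * w ^ 3; ring) (by show 4 * w ^ 5 = w * (4 * w ^ 4); ring)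
  · exact Prod.ext (by show w ^ 5 = w * w ^ 4; ring) (by show 4 * w ^ 6 = w * (4 * w ^ 5); ring)
  · exact Prod.ext (by show w ^ 0 = w * w ^ 5; linear_combination -h)
      (by show 4 * w ^ 1 = w * (4 * w ^ 6); linear_combination -4 * w * h)


/-- the point `x + y w` of a segment -/
lemma mem_seg {a b c d x y : ℝ} (h : E x y ∈ segment ℝ (E a b) (E c d)) :
    ∃ s : ℝ, 0 ≤ s ∧ s ≤ 1 ∧ x = (1 - s) * a + s * c ∧ y = (1 - s) * b + s * d := by
  obtain ⟨u, v, hu, hv, huv, h⟩ := h
  rw [E_smul, E_smul, E_add] at h
  obtain ⟨h1, h2⟩ := E_inj h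
  refine ⟨v, hv, by linarith, ?_, ?_⟩
  · rw [← h1, ← huv]; ring
  · rw [← h2, ← huv]; ring

lemma m_next {i : Fin 6} {a b c d : ℝ} (h : six i = (E a b, E c d)) :
    six (i + 1) = (E (-b) (a + b), E (-d) (c + d)) := by
  rw [rot, h, w_mul, w_mul]

lemma m1 : six 1 = (E 0 1, E (-4) 4) := by
  have := m_next m0
  norm_num at this
  exact this

lemma m2 : six 2 = (E (-1) 1, E (-4) 0) := by
  have := m_next m1
  norm_num at this
  exact this

lemma m3 : six 3 = (E (-1) 0, E 0 (-4)) := by
  have := m_next m2
  norm_num at this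
  exact this

lemma m4 : six 4 = (E 0 (-1), E 4 (-4)) := by
  have := m_next m3
  norm_num at this
  exact this

lemma m5 : six 5 = (E 1 (-1), E 4 0) := by
  have := m_next m4
  norm_num at this
  exact this

/-- A point which satisfies these six conditions is on none of the mirrors. -/
lemma off {x y : ℝ} (h0 : 4 * x + y ≠ 4 ∨ y < 0) (h1 : 0 < 15 * x + 7 * y - 8 ∨ 0 < x ∨ y < 0)
    (h3 : 0 < 15 * x + 7 * y - 8 ∨ 0 < x ∨ 0 < x + y) (h4 : 0 < x + y)
    (h5 : x - 3 * y < 4 ∨ 0 < y) (i : Fin 6) : E x y ∉ mirror (six i) := by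
  intro h
  unfold mirror at h
  fin_cases i
  · simp only [Fin.zero_eta, m0] at h
    obtain ⟨s, hs0, hs1, rfl, rfl⟩ := mem_seg h
    rcases h0 with h0 | h0
    · exact h0 (by ring)
    · linarith
  · simp only [Fin.mk_one, m1] at h
    obtain ⟨s, hs0, hs1, rfl, rfl⟩ := mem_seg h
    rcases h1 with h1 | h1 | h1 <;> linarith
  · have h' : E x y ∈ segment ℝ (six 2).1 (six 2).2 := h
    rw [m2] at h'
    obtain ⟨s, hs0, hs1, rfl, rfl⟩ := mem_seg h'
    rcases h1 with h1 | h1 | h1 <;> linarith
  · have h' : E x y ∈ segment ℝ (six 3).1 (six 3).2 := h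
    rw [m3] at h'
    obtain ⟨s, hs0, hs1, rfl, rfl⟩ := mem_seg h'
    rcases h3 with h3 | h3 | h3 <;> linarith
  · have h' : E x y ∈ segment ℝ (six 4).1 (six 4).2 := h
    rw [m4] at h'
    obtain ⟨s, hs0, hs1, rfl, rfl⟩ := mem_seg h'
    linarith
  · have h' : E x y ∈ segment ℝ (six 5).1 (six 5).2 := h
    rw [m5] at h'
    obtain ⟨s, hs0, hs1, rfl, rfl⟩ := mem_seg h'
    rcases h5 with h5 | h5
    · linarith
    · linarith

/-- direct light -/
lemma direct {x y : ℝ} (hx : 0 < x) (hy : 0 < y) (h : 4 * x + y < 4) : Illuminated six 0 (E x y) := by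
  refine ⟨0, E x y, 1, Leaves.start _ ?_, zero_le_one, ?_, by simp⟩
  · intro h0
    have : E x y = E 0 0 := by rw [h0]; simp [E]; rfl
    linarith [(E_inj this).1]
  · intro s hs hs1 i
    rw [zero_add, E_smul]
    have h1 : 0 < s * x := mul_pos hs hx
    have h2 : 0 < s * y := mul_pos hs hy
    refine off (Or.inl ?_) (Or.inr (Or.inl h1)) (Or.inr (Or.inl h1)) (by linarith) (Or.inr h2) i
    have : s * (4 * x + y) < 1 * 4 := by nlinarith
    intro h3
    linarith

/-- light reflected at the last mirror -/
lemma reflected {a t : ℝ} (ha : 0 < a) (ha1 : a < 1) (hne : 13 * a ≠ 1) (ht : 0 < t) :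
    Illuminated six 0 (E (1 + 3 * a + t * (3 * a - 7 / 13)) (-1 + a + t * (a + 15 / 13))) := by
  have hst : Leaves six 0 0 (E (1 + 3 * a) (-1 + a)) := by
    refine Leaves.start _ fun h0 => ?_
    have : E (1 + 3 * a) (-1 + a) = E 0 0 := by rw [h0]; simp [E]; rfl
    linarith [(E_inj this).1]
  have hc : Clear six 0 (E (1 + 3 * a) (-1 + a)) 1 := by
    intro s hs hs1 i
    rw [zero_add, E_smul]
    have h1 : s * (-1 + a) < 0 := mul_neg_of_pos_of_neg hs (by linarith)
    have h2 : 0 < s * a := mul_pos hs ha
    have h3 : 0 < s * (1 + 3 * a) + s * (-1 + a) := by nlinarith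
    exact off (Or.inr h1) (Or.inr (Or.inr h1)) (Or.inr (Or.inr h3)) h3 (Or.inl (by nlinarith)) i
  have hr := Leaves.reflect 0 _ 1 5 hst one_pos hc (by
    rw [zero_add, one_smul, m5]
    refine ⟨1 - a, a, by linarith, ha, by ring, ?_⟩
    rw [E_smul, E_smul, E_add]
    congr 1 <;> ring)
  rw [zero_add, one_smul, m5] at hr
  have hrefl : refl (E 4 0 - E 1 (-1)) (E (1 + 3 * a) (-1 + a)) = E (3 * a - 7 / 13) (a + 15 / 13) := by
    unfold refl
    rw [E_sub, inner_E, inner_E, E_smul, E_sub]
    congr 1 <;> ring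
  rw [hrefl] at hr
  refine ⟨_, _, t, hr, ht.le, ?_, ?_⟩
  · intro s hs hst i
    rw [E_smul, E_add]
    have h2 : 0 < s * a := mul_pos hs ha
    refine off (Or.inl fun h => ?_) (Or.inl (by nlinarith)) (Or.inl (by nlinarith)) (by nlinarith)
      (Or.inl (by nlinarith)) i
    have h3 : (1 + s) * (13 * a - 1) = 0 := by linarith
    rcases mul_eq_zero.1 h3 with h4 | h4
    · linarith
    · exact hne (by linarith)
  · rw [E_smul, E_add]

/-- the points reached by the light reflected at the last mirror -/
lemma reached {x y : ℝ} (h1 : 0 < 28 - 7 * x + 8 * y) (h2 : 0 < 15 * x + 7 * y - 8)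
    (h3 : x - 3 * y < 4) (h4 : 4 * x + y ≠ 4) : Illuminated six 0 (E x y) := by
  have hd : 0 < 8 - x + 3 * y := by linarith
  obtain ⟨a, ha⟩ : ∃ a : ℝ, a * (8 - x + 3 * y) = (15 * x + 7 * y - 8) / 13 :=
    ⟨(15 * x + 7 * y - 8) / 13 / (8 - x + 3 * y), by rw [div_mul_cancel₀ _ hd.ne']⟩
  have ha0 : 0 < a := by
    by_contra h
    have : a * (8 - x + 3 * y) ≤ 0 := mul_nonpos_of_nonpos_of_nonneg (not_lt.1 h) hd.le
    linarith
  have ha1 : a < 1 := by
    by_contra h
    have : 1 * (8 - x + 3 * y) ≤ a * (8 - x + 3 * y) := mul_le_mul_of_nonneg_right (not_lt.1 h) hd.le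
    linarith
  have h5 := reflected (a := a) (t := (4 - x + 3 * y) / 4) ha0 ha1 (fun h => ?_) (by linarith)
  · convert h5 using 2
    · linear_combination (-3 / 4) * ha
    · linear_combination (-1 / 4) * ha
  · apply h4
    linear_combination (-13 / 4) * ha + (8 - x + 3 * y) / 4 * h

/-! ### Rotation -/

lemma w_smul (s : ℝ) (z : ℂ) : w * (s • z) = s • (w * z) := by
  rw [mul_smul_comm]

lemma seg_rot {z : ℂ} {i : Fin 6} (h : w * z ∈ mirror (six (i + 1))) : z ∈ mirror (six i) := by
  unfold mirror at h ⊢
  rw [rot] at h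
  obtain ⟨a, b, ha, hb, hab, h⟩ := h
  refine ⟨a, b, ha, hb, hab, ?_⟩
  apply mul_left_cancel₀ w0
  rw [← h, mul_add, w_smul, w_smul]

lemma clear_rot {x v : ℂ} {t : ℝ} (h : Clear six x v t) : Clear six (w * x) (w * v) t := by
  intro s hs hst i hi
  have h1 : i = (i - 1) + 1 := by rw [sub_add_cancel]
  rw [h1, ← w_smul, ← mul_add] at hi
  exact h s hs hst _ (seg_rot hi)

lemma inner_rot (a b : ℂ) : inner ℝ (w * a) (w * b) = inner ℝ a b := by
  have h := s3
  rw [Complex.inner, Complex.inner]
  simp only [w, Complex.mul_re, Complex.conj_re, Complex.conj_im, Complex.mul_im]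
  linear_combination ((a.re * b.re + a.im * b.im) / 4) * h

lemma refl_rot (d v : ℂ) : refl (w * d) (w * v) = w * refl d v := by
  unfold refl
  rw [inner_rot, inner_rot, mul_sub, w_smul]

lemma leaves_rot {x v : ℂ} (h : Leaves six 0 x v) : Leaves six 0 (w * x) (w * v) := by
  induction h with
  | start v hv =>
    rw [mul_zero]
    exact Leaves.start _ (mul_ne_zero w0 hv)
  | reflect x v t i h ht hc hi ih =>
    have h1 := Leaves.reflect (w * x) (w * v) t (i + 1) ih ht (clear_rot hc) (by
      rw [rot, ← w_smul, ← mul_add]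
      obtain ⟨a, b, ha, hb, hab, h2⟩ := hi
      exact ⟨a, b, ha, hb, hab, by rw [← h2, mul_add, w_smul, w_smul]⟩)
    rw [rot] at h1
    simp only at h1
    rw [← mul_sub, refl_rot, ← w_smul, ← mul_add] at h1
    exact h1

lemma ill_rot {q : ℂ} (h : Illuminated six 0 q) : Illuminated six 0 (w * q) := by
  obtain ⟨x, v, t, h1, h2, h3, rfl⟩ := h
  exact ⟨w * x, w * v, t, leaves_rot h1, h2, clear_rot h3, by rw [mul_add, w_smul]⟩

lemma ill_E {x y : ℝ} (h : Illuminated six 0 (E (x + y) (-x))) : Illuminated six 0 (E x y) := by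
  have := ill_rot h
  rw [w_mul] at this
  convert this using 2 <;> ring

/-- the sector `x, y > 0` -/
lemma sector {x y : ℝ} (hx : 0 < x) (hy : 0 < y) (h1 : 4 * x + y ≠ 4) (h2 : 8 * y - 7 * x ≠ -28)
    (h3 : x - 3 * y ≠ 4) : Illuminated six 0 (E x y) := by
  rcases lt_or_gt_of_ne h1 with h | h
  · exact direct hx hy h
  rcases lt_or_gt_of_ne h2 with h' | h'
  · -- the light comes from the mirror before the last one
    have h4 : Illuminated six 0 (E (-y) (x + y)) := by
      refine reached (by linarith) (by linarith) (by linarith) fun h5 => h3 (by linarith)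
    -- five more rotations
    have h5 := ill_rot (ill_rot (ill_rot (ill_rot (ill_rot h4))))
    simp only [w_mul] at h5
    convert h5 using 2 <;> ring
  · exact reached (by linarith) (by linarith) (by linarith) h1

/-! ### The exceptional lines -/

/-- the exceptional lines `a x + b y = c` -/
def lines : List (ℝ × ℝ × ℝ) :=
  [(1, 0, 0), (0, 1, 0), (1, 1, 0),
   (4, 1, 4), (-7, 8, -28), (1, -3, 4), (3, 4, 4), (-15, -7, -28), (4, 1, 4),
   (-1, 3, 4), (-8, -15, -28), (3, 4, 4), (-4, -1, 4), (7, -8, -28), (-1, 3, 4),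
   (-3, -4, 4), (15, 7, -28), (-4, -1, 4), (1, -3, 4), (8, 15, -28), (-3, -4, 4)]

lemma generic {x y : ℝ} (h : ∀ l ∈ lines, l.1 * x + l.2.1 * y ≠ l.2.2) :
    Illuminated six 0 (E x y) := by
  simp only [lines, List.mem_cons, List.not_mem_nil, or_false, forall_eq_or_imp, forall_eq] at h
  obtain ⟨a1, a2, a3, b1, b2, b3, c1, c2, c3, d1, d2, d3, e1, e2, e3, f1, f2, f3, g1, g2, g3⟩ := h
  have hx : x ≠ 0 := fun h => a1 (by rw [h]; ring)
  have hy : y ≠ 0 := fun h => a2 (by rw [h]; ring)
  have hxy : x + y ≠ 0 := fun h => a3 (by linarith)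
  rcases lt_or_gt_of_ne hx with hx | hx <;> rcases lt_or_gt_of_ne hy with hy | hy <;>
    rcases lt_or_gt_of_ne hxy with hz | hz
  · -- `x < 0`, `y < 0`
    apply ill_E; apply ill_E; apply ill_E
    exact sector (by linarith) (by linarith) (fun h => e1 (by linarith)) (fun h => e2 (by linarith))
      (fun h => e3 (by linarith))
  · linarith
  · -- `x < 0 < y`, `x + y < 0`
    apply ill_E; apply ill_E
    exact sector (by linarith) (by linarith) (fun h => d1 (by linarith)) (fun h => d2 (by linarith))
      (fun h => d3 (by linarith))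
  · -- `x < 0`, `x + y > 0`
    apply ill_E
    exact sector (by linarith) (by linarith) (fun h => c1 (by linarith)) (fun h => c2 (by linarith))
      (fun h => c3 (by linarith))
  · -- `x > 0`, `x + y < 0`
    apply ill_E; apply ill_E; apply ill_E; apply ill_E
    exact sector (by linarith) (by linarith) (fun h => f1 (by linarith)) (fun h => f2 (by linarith))
      (fun h => f3 (by linarith))
  · -- `y < 0 < x + y`
    apply ill_E; apply ill_E; apply ill_E; apply ill_E; apply ill_E
    exact sector (by linarith) (by linarith) (fun h => g1 (by linarith)) (fun h => g2 (by linarith))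
      (fun h => g3 (by linarith))
  · linarith
  · exact sector hx hy (fun h => b1 (by linarith)) (fun h => b2 (by linarith))
      (fun h => b3 (by linarith))

/-- a line has measure zero -/
lemma line_null {a b : ℝ} (c : ℝ) (hab : a ≠ 0 ∨ b ≠ 0) :
    volume {z : ℂ | a * z.re + b * z.im = c} = 0 := by
  rcases Set.eq_empty_or_nonempty {z : ℂ | a * z.re + b * z.im = c} with h | ⟨z0, hz0⟩
  · rw [h]; exact measure_empty
  let f : ℂ →ₗ[ℝ] ℝ := a • Complex.reLm + b • Complex.imLm
  have hf : ∀ z, f z = a * z.re + b * z.im := fun z => rfl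
  refine measure_mono_null (t := (AffineSubspace.mk' z0 (LinearMap.ker f) : Set ℂ)) ?_
    (Measure.addHaar_affineSubspace volume _ ?_)
  · intro z hz
    have hz' : a * z.re + b * z.im = c := hz
    have hz0' : a * z0.re + b * z0.im = c := hz0
    rw [SetLike.mem_coe, AffineSubspace.mem_mk', LinearMap.mem_ker, vsub_eq_sub, map_sub, hf, hf, hz',
      hz0', sub_self]
  · intro h
    have h1 : LinearMap.ker f = ⊤ := by
      rw [← AffineSubspace.direction_mk' z0 (LinearMap.ker f), h, AffineSubspace.direction_top]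
    have h2 : ∀ z, f z = 0 := fun z => by
      have : z ∈ LinearMap.ker f := by rw [h1]; trivial
      exact this
    rcases hab with ha | hb
    · apply ha
      have := h2 1
      rw [hf] at this
      simpa using this
    · apply hb
      have := h2 Complex.I
      rw [hf] at this
      simpa using this

/-- all mirrors in the coordinates `x`, `y` -/
lemma coords (i : Fin 6) : six i = ![(E 1 0, E 0 4), (E 0 1, E (-4) 4), (E (-1) 1, E (-4) 0),
    (E (-1) 0, E 0 (-4)), (E 0 (-1), E 4 (-4)), (E 1 (-1), E 4 0)] i := by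
  fin_cases i
  · exact m0
  · exact m1
  · exact m2
  · exact m3
  · exact m4
  · exact m5

lemma ends_ne (i : Fin 6) : (six i).1 ≠ (six i).2 := by
  rw [coords]
  intro h
  fin_cases i <;> · have := E_inj h; norm_num at this

lemma disj : Pairwise fun i j => Disjoint (mirror (six i)) (mirror (six j)) := by
  intro i j hij
  rw [Set.disjoint_left]
  intro z h1 h2
  rw [E_surj z] at h1 h2
  unfold mirror at h1 h2
  rw [coords] at h1 h2
  fin_cases i <;> fin_cases j <;> first
    | exact hij rfl
    | (obtain ⟨s, hs0, hs1, hx, hy⟩ := mem_seg h1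
       obtain ⟨t, ht0, ht1, hx', hy'⟩ := mem_seg h2
       linarith)

lemma zero_off (i : Fin 6) : (0 : ℂ) ∉ line[ℝ, (six i).1, (six i).2] := by
  rw [coords]
  intro hmem
  obtain ⟨r, hr⟩ := mem_affineSpan_pair_iff_exists_lineMap_eq.1 hmem
  have h0 : (0 : ℂ) = E 0 0 := by simp [E]; rfl
  rw [h0] at hr
  have key : ∀ a b c d : ℝ, AffineMap.lineMap (E a b) (E c d) r = E 0 0 →
      r * (c - a) + a = 0 ∧ r * (d - b) + b = 0 := by
    intro a b c d h
    rw [AffineMap.lineMap_apply, vsub_eq_sub, vadd_eq_add, E_sub, E_smul, E_add] at h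
    exact E_inj h
  fin_cases i <;> · obtain ⟨h1, h2⟩ := key _ _ _ _ hr; linarith

/-- **Six segment mirrors without a dark region.** There are six pairwise disjoint segments of positive
length in the plane and a point `p`, not on the line through any of them, such that the set of the
points that are not illuminated from `p` has Lebesgue measure zero. -/
theorem result : ∃ (M : Fin 6 → ℂ × ℂ) (p : ℂ),
    (∀ i, (M i).1 ≠ (M i).2) ∧
    (Pairwise fun i j => Disjoint (mirror (M i)) (mirror (M j))) ∧
    (∀ i, p ∉ line[ℝ, (M i).1, (M i).2]) ∧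
    volume {q : ℂ | ¬ Illuminated M p q} = 0 := by
  refine ⟨six, 0, ends_ne, disj, zero_off, ?_⟩
  refine measure_mono_null (t := ⋃ l ∈ {l | l ∈ lines},
    {z : ℂ | l.1 * (z.re - z.im / √3) + l.2.1 * (2 * z.im / √3) = l.2.2}) ?_ ?_
  · intro q hq
    by_contra h
    apply hq
    rw [E_surj q]
    refine generic fun l hl h1 => h ?_
    exact Set.mem_biUnion (x := l) hl h1
  · rw [measure_biUnion_null_iff (List.finite_toSet lines).countable]
    intro l hl
    have h3 := s3p
    have e : {z : ℂ | l.1 * (z.re - z.im / √3) + l.2.1 * (2 * z.im / √3) = l.2.2} =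
        {z : ℂ | l.1 * z.re + ((2 * l.2.1 - l.1) / √3) * z.im = l.2.2} := by
      ext z
      simp only [Set.mem_ofPred_eq]
      have : l.1 * (z.re - z.im / √3) + l.2.1 * (2 * z.im / √3) =
          l.1 * z.re + ((2 * l.2.1 - l.1) / √3) * z.im := by ring
      rw [this]
    rw [e]
    refine line_null _ ?_
    by_cases h : l.1 = 0
    · right
      refine div_ne_zero ?_ h3.ne'
      rw [h]
      have h4 : l ∈ lines := hl
      simp only [lines, List.mem_cons, List.not_mem_nil, or_false] at h4
      rcases h4 with rfl | rfl | rfl | rfl | rfl | rfl | rfl | rfl | rfl | rfl | rfl | rfl | rfl | rfl |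
        rfl | rfl | rfl | rfl | rfl | rfl | rfl <;> first | (norm_num; done) | norm_num at h
    · exact Or.inl h

end Pool.Agent.Results.MP_74d6fb_co.SixMirrors
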